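import Pool.Agent.H23.MEProof

open Pool.Agent.H23.ME

theorem Pool.Agent.Results.MP_18a4fa_co.LongAttack.result :
    ∃ (n : ℕ) (G : SimpleGraph (Fin n)) (C : Finset (Fin n)),
      C.card + 1 ≤ gammaM G ∧ ¬ AttackerWins G n C :=
  ⟨61, G, main⟩
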